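import Mathlib

set_option autoImplicit false

/-!
# Exponentially many dimensions of rigid facets in Vietoris-Rips complexes of the cube

Two rigid facets `F` (16 points) and `G` (8 points) of `VR(Q_6; 4)` with all distances between
`F` and `G` at most `5` are glued over the antipodal pairs of a cube `Q_k`: for a set `U` of
antipodal pairs, the points `(u, x)` with `x ∈ G` for `u ∈ U` and `x ∈ F` for `u ∉ U` form a rigid
facet of `VR(Q_n; k + 4)`, `n ≥ k + 6`.
-/

namespace Pool.Agent.Results.MP_dee721_co.ExponentiallyMany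

/-- The vertices of the cube `Q_n`; the distance is the Hamming distance `hammingDist`. -/
abbrev Q (n : ℕ) : Type := Fin n → Bool

/-- The simplices of the Vietoris-Rips complex `VR(Q_n; r)`. -/
def IsSimplex (n r : ℕ) (σ : Finset (Q n)) : Prop :=
  σ.Nonempty ∧ ∀ x ∈ σ, ∀ y ∈ σ, hammingDist x y ≤ r

/-- The facets of `VR(Q_n; r)`: the simplices which are maximal under inclusion. -/
def IsFacet (n r : ℕ) (σ : Finset (Q n)) : Prop :=
  IsSimplex n r σ ∧ ∀ τ, IsSimplex n r τ → σ ⊆ τ → τ = σ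

/-- A simplex `σ` of `VR(Q_n; r)` is rigid if for each `x ∈ σ` the largest distance from `x` to a
point of `σ` is `r`. -/
def IsRigid (n r : ℕ) (σ : Finset (Q n)) : Prop :=
  ∀ x ∈ σ, IsGreatest {d | ∃ y ∈ σ, d = hammingDist x y} r

/-- `f(n; r)`: the number of distinct dimensions of rigid facets of `VR(Q_n; r)`. -/
noncomputable def f (n r : ℕ) : ℕ :=
  {d : ℕ | ∃ σ : Finset (Q n), IsFacet n r σ ∧ IsRigid n r σ ∧ d = σ.card - 1}.ncard

/-! ### the two facets of `VR(Q_6; 4)` -/

/-- binary digits -/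
def bits (m : ℕ) : Q 6 := fun i => m.testBit i

/-- the facet with 16 points -/
def F0 : Finset (Q 6) :=
  (({56, 55, 47, 4, 28, 11, 26, 21, 32, 38, 41, 1, 2, 50, 14, 19} : Finset ℕ)).image bits

/-- the facet with 8 points -/
def F1 : Finset (Q 6) := (({11, 18, 56, 4, 33, 55, 46, 29} : Finset ℕ)).image bits

/-- both facets -/
def F (b : Bool) : Finset (Q 6) := if b then F1 else F0

theorem F_diam : ∀ b, ∀ x ∈ F b, ∀ y ∈ F b, hammingDist x y ≤ 4 := by decide +kernel

theorem F_cross : ∀ b c, ∀ x ∈ F b, ∀ y ∈ F c, hammingDist x y ≤ 5 := by decide +kernel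

theorem F_max : ∀ b, ∀ x, x ∉ F b → ∃ y ∈ F b, 5 ≤ hammingDist x y := by decide +kernel

theorem F_rigid : ∀ b, ∀ x ∈ F b, ∃ y ∈ F b, hammingDist x y = 4 := by decide +kernel

theorem F_card : (F true).card = 8 ∧ (F false).card = 16 := by decide +kernel

/-! ### distances -/

theorem hammingDist_eq_sum {n : ℕ} (x y : Q n) :
    hammingDist x y = ∑ i, if x i ≠ y i then 1 else 0 := by
  rw [hammingDist, Finset.card_filter]

theorem hammingDist_append {a b : ℕ} (x x' : Q a) (y y' : Q b) :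
    hammingDist (Fin.append x y) (Fin.append x' y') = hammingDist x x' + hammingDist y y' := by
  rw [hammingDist_eq_sum, hammingDist_eq_sum, hammingDist_eq_sum, Fin.sum_univ_add]
  simp

/-- the antipode -/
def anti {k : ℕ} (u : Q k) : Q k := fun i => !u i

theorem anti_anti {k : ℕ} (u : Q k) : anti (anti u) = u := by
  funext i; simp [anti]

theorem dist_anti {k : ℕ} (u : Q k) : hammingDist u (anti u) = k := by
  rw [hammingDist_eq_sum]
  simp [anti]

theorem dist_le {k : ℕ} (u v : Q k) : hammingDist u v ≤ k := by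
  have := hammingDist_le_card_fintype (x := u) (y := v)
  simpa using this

theorem dist_lt {k : ℕ} {u v : Q k} (h : v ≠ anti u) : hammingDist u v < k := by
  obtain ⟨i, hi⟩ : ∃ i, v i ≠ anti u i := by
    by_contra hcon
    push Not at hcon
    exact h (funext hcon)
  have hi' : u i = v i := by
    simp only [anti] at hi
    revert hi
    cases u i <;> cases v i <;> simp
  rw [hammingDist_eq_sum]
  calc ∑ j, (if u j ≠ v j then 1 else 0) < ∑ _j : Fin k, 1 := by
        apply Finset.sum_lt_sum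
        · intro j _
          split_ifs <;> simp
        · exact ⟨i, Finset.mem_univ i, by simp [hi']⟩
    _ = k := by simp

/-! ### the glued facets -/

variable {k m : ℕ}

/-- the point `(u, x, 0)` -/
def pt (u : Q k) (x : Q 6) (w : Q m) : Q (k + 6 + m) := Fin.append (Fin.append u x) w

theorem pt_dist (u u' : Q k) (x x' : Q 6) (w w' : Q m) :
    hammingDist (pt u x w) (pt u' x' w') =
      hammingDist u u' + hammingDist x x' + hammingDist w w' := by
  rw [pt, pt, hammingDist_append, hammingDist_append]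

theorem pt_surj (z : Q (k + 6 + m)) : ∃ u x w, z = pt (k := k) (m := m) u x w := by
  refine ⟨fun i => z (Fin.castAdd m (Fin.castAdd 6 i)), fun i => z (Fin.castAdd m (Fin.natAdd k i)),
    fun i => z (Fin.natAdd (k + 6) i), ?_⟩
  funext i
  refine Fin.addCases (fun j => ?_) (fun j => ?_) i
  · rw [pt, Fin.append_left]
    refine Fin.addCases (fun l => ?_) (fun l => ?_) j
    · rw [Fin.append_left]
    · rw [Fin.append_right]
  · rw [pt, Fin.append_right]

theorem pt_inj {u u' : Q k} {x x' : Q 6} {w w' : Q m} (h : pt u x w = pt u' x' w') :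
    u = u' ∧ x = x' ∧ w = w' := by
  have h1 : hammingDist (pt u x w) (pt u' x' w') = 0 := by rw [h]; exact hammingDist_self _
  rw [pt_dist] at h1
  refine ⟨?_, ?_, ?_⟩
  · exact hammingDist_eq_zero.1 (by omega)
  · exact hammingDist_eq_zero.1 (by omega)
  · exact hammingDist_eq_zero.1 (by omega)

/-- zero vector -/
def zr : Q m := fun _ => false

/-- the glued set -/
def S (m : ℕ) (t : Q k → Bool) : Finset (Q (k + 6 + m)) :=
  (Finset.univ.sigma (fun u : Q k => F (t u))).image (fun p => pt p.1 p.2 zr)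

theorem mem_S {t : Q k → Bool} {z : Q (k + 6 + m)} :
    z ∈ S m t ↔ ∃ u, ∃ x ∈ F (t u), z = pt u x zr := by
  rw [S, Finset.mem_image]
  constructor
  · rintro ⟨⟨u, x⟩, h, rfl⟩
    rw [Finset.mem_sigma] at h
    exact ⟨u, x, h.2, rfl⟩
  · rintro ⟨u, x, h, rfl⟩
    exact ⟨⟨u, x⟩, by rw [Finset.mem_sigma]; exact ⟨Finset.mem_univ _, h⟩, rfl⟩

theorem S_card (t : Q k → Bool) : (S m t).card = ∑ u, (F (t u)).card := by
  rw [S, Finset.card_image_of_injOn, Finset.card_sigma]
  rintro ⟨u, x⟩ _ ⟨u', x'⟩ _ h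
  obtain ⟨h1, h2, _⟩ := pt_inj h
  simp only at h1 h2
  subst h1
  subst h2
  rfl

theorem S_diam {t : Q k → Bool} (ht : ∀ u, t (anti u) = t u) :
    ∀ x ∈ S m t, ∀ y ∈ S m t, hammingDist x y ≤ k + 4 := by
  intro z hz z' hz'
  obtain ⟨u, x, hx, rfl⟩ := mem_S.1 hz
  obtain ⟨u', x', hx', rfl⟩ := mem_S.1 hz'
  rw [pt_dist, hammingDist_self]
  by_cases h : u' = anti u
  · subst h
    rw [ht] at hx'
    have h1 := F_diam _ x hx x' hx'
    have h2 := dist_le u (anti u)
    omega
  · have h1 := F_cross _ _ x hx x' hx'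
    have h2 := dist_lt h
    omega

theorem S_rigid {t : Q k → Bool} (ht : ∀ u, t (anti u) = t u) :
    ∀ x ∈ S m t, ∃ y ∈ S m t, hammingDist x y = k + 4 := by
  intro z hz
  obtain ⟨u, x, hx, rfl⟩ := mem_S.1 hz
  obtain ⟨y, hy, hxy⟩ := F_rigid _ x hx
  refine ⟨pt (anti u) y zr, mem_S.2 ⟨anti u, y, by rw [ht]; exact hy, rfl⟩, ?_⟩
  rw [pt_dist, dist_anti, hxy, hammingDist_self]

theorem S_max {t : Q k → Bool} (ht : ∀ u, t (anti u) = t u) (z : Q (k + 6 + m))
    (hz : z ∉ S m t) : ∃ y ∈ S m t, k + 4 < hammingDist z y := by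
  obtain ⟨u, x, w, rfl⟩ := pt_surj (k := k) (m := m) z
  by_cases hx : x ∈ F (t u)
  · have hw : w ≠ zr := by
      rintro rfl
      exact hz (mem_S.2 ⟨u, x, hx, rfl⟩)
    obtain ⟨y, hy, hxy⟩ := F_rigid _ x hx
    refine ⟨pt (anti u) y zr, mem_S.2 ⟨anti u, y, by rw [ht]; exact hy, rfl⟩, ?_⟩
    rw [pt_dist, dist_anti, hxy]
    have := hammingDist_pos.2 hw
    omega
  · obtain ⟨y, hy, hxy⟩ := F_max _ x hx
    refine ⟨pt (anti u) y zr, mem_S.2 ⟨anti u, y, by rw [ht]; exact hy, rfl⟩, ?_⟩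
    rw [pt_dist, dist_anti]
    omega

theorem S_facet {t : Q k → Bool} (ht : ∀ u, t (anti u) = t u) :
    IsFacet (k + 6 + m) (k + 4) (S m t) ∧ IsRigid (k + 6 + m) (k + 4) (S m t) := by
  refine ⟨⟨⟨?_, S_diam ht⟩, ?_⟩, ?_⟩
  · obtain ⟨y, hy, -⟩ : ∃ y ∈ F (t zr), True := by
      by_cases h : bits 0 ∈ F (t zr)
      · exact ⟨_, h, trivial⟩
      · obtain ⟨y, hy, -⟩ := F_max _ _ h
        exact ⟨y, hy, trivial⟩
    exact ⟨pt zr y zr, mem_S.2 ⟨zr, y, hy, rfl⟩⟩
  · intro τ hτ hsub
    apply Finset.Subset.antisymm _ hsub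
    intro z hz
    by_contra hcon
    obtain ⟨y, hy, hzy⟩ := S_max ht z hcon
    have := hτ.2 z hz y (hsub hy)
    omega
  · intro x hx
    constructor
    · obtain ⟨y, hy, hxy⟩ := S_rigid ht x hx
      exact ⟨y, hy, hxy.symm⟩
    · rintro d ⟨y, hy, rfl⟩
      exact S_diam ht x hx y hy

/-! ### counting -/

theorem anti_inj : Function.Injective (anti (k := k)) := by
  intro u v h
  rw [← anti_anti u, h, anti_anti]

/-- half of the cube -/
def half (k : ℕ) : Finset (Q (k + 1)) := Finset.univ.filter (fun u => u 0 = false)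

theorem half_card : (half k).card = 2 ^ k := by
  have h1 : (half k).card = (Finset.univ : Finset (Q k)).card := by
    symm
    apply Finset.card_bij (fun (v : Q k) _ => (Fin.cons false v : Q (k + 1)))
    · intro v _
      simp [half]
    · intro v _ w _ h
      exact (Fin.cons_injective2 h).2
    · intro u hu
      rw [half, Finset.mem_filter] at hu
      refine ⟨Fin.tail u, Finset.mem_univ _, ?_⟩
      rw [← hu.2]
      exact Fin.cons_self_tail u
  rw [h1]
  simp

theorem exists_t (j : ℕ) (hj : j ≤ 2 ^ k) :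
    ∃ t : Q (k + 1) → Bool, (∀ u, t (anti u) = t u) ∧
      (∑ u, (F (t u)).card) + 16 * j = 32 * 2 ^ k := by
  obtain ⟨A, hA, hAc⟩ := Finset.exists_subset_card_eq (s := half k) (n := j) (by rw [half_card]; exact hj)
  have hA0 : ∀ u ∈ A, u 0 = false := by
    intro u hu
    have := hA hu
    rw [half, Finset.mem_filter] at this
    exact this.2
  let B : Finset (Q (k + 1)) := A ∪ A.image anti
  have hB : B.card = 2 * j := by
    rw [Finset.card_union_of_disjoint, Finset.card_image_of_injective _ anti_inj, hAc, two_mul]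
    rw [Finset.disjoint_left]
    intro u hu hu'
    rw [Finset.mem_image] at hu'
    obtain ⟨v, hv, rfl⟩ := hu'
    have h1 := hA0 _ hu
    have h2 := hA0 _ hv
    simp [anti, h2] at h1
  refine ⟨fun u => decide (u ∈ B), ?_, ?_⟩
  · intro u
    have : anti u ∈ B ↔ u ∈ B := by
      simp only [B, Finset.mem_union, Finset.mem_image]
      constructor
      · rintro (h | ⟨v, hv, h⟩)
        · right
          exact ⟨_, h, anti_anti u⟩
        · left
          rw [← anti_inj h]
          exact hv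
      · rintro (h | ⟨v, hv, h⟩)
        · right
          exact ⟨u, h, rfl⟩
        · left
          rw [← h, anti_anti]
          exact hv
    simp only [this]
  · have h1 : ∀ u : Q (k + 1), (F (decide (u ∈ B))).card = 16 - 8 * (if u ∈ B then 1 else 0) := by
      intro u
      by_cases h : u ∈ B
      · simp [h, F_card.1]
      · simp [h, F_card.2]
    have h2 : ∀ u : Q (k + 1), (F (decide (u ∈ B))).card + 8 * (if u ∈ B then 1 else 0) = 16 := by
      intro u
      rw [h1]
      split_ifs <;> simp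
    have h3 : ∑ u : Q (k + 1), ((F (decide (u ∈ B))).card + 8 * (if u ∈ B then 1 else 0)) =
        16 * 2 ^ (k + 1) := by
      rw [Finset.sum_congr rfl (fun u _ => h2 u)]
      simp [mul_comm]
    rw [Finset.sum_add_distrib, ← Finset.mul_sum] at h3
    have h4 : ∑ u : Q (k + 1), (if u ∈ B then 1 else 0) = 2 * j := by
      rw [← hB, Finset.card_eq_sum_ones, Finset.sum_ite_mem]
      simp
    rw [h4] at h3
    have h5 : 2 ^ (k + 1) = 2 * 2 ^ k := by rw [pow_succ]; ring
    simp only at h3 ⊢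
    omega

theorem dims_finite (n r : ℕ) :
    {d : ℕ | ∃ σ : Finset (Q n), IsFacet n r σ ∧ IsRigid n r σ ∧ d = σ.card - 1}.Finite := by
  apply Set.Finite.subset (Set.finite_range (fun σ : Finset (Q n) => σ.card - 1))
  rintro d ⟨σ, -, -, rfl⟩
  exact ⟨σ, rfl⟩

theorem lower (k m : ℕ) : 2 ^ k + 1 ≤ f (k + 1 + 6 + m) (k + 1 + 4) := by
  rw [f]
  have h : (fun j => 32 * 2 ^ k - 16 * j - 1) '' (Set.Iic (2 ^ k)) ⊆
      {d : ℕ | ∃ σ : Finset (Q (k + 1 + 6 + m)), IsFacet (k + 1 + 6 + m) (k + 1 + 4) σ ∧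
        IsRigid (k + 1 + 6 + m) (k + 1 + 4) σ ∧ d = σ.card - 1} := by
    rintro d ⟨j, hj, rfl⟩
    obtain ⟨t, ht, hc⟩ := exists_t j hj
    refine ⟨S m t, (S_facet ht).1, (S_facet ht).2, ?_⟩
    rw [S_card]
    simp only
    omega
  have h2 := Set.ncard_le_ncard h (dims_finite _ _)
  rw [Set.InjOn.ncard_image] at h2
  · have h3 : (Set.Iic (2 ^ k)).ncard = 2 ^ k + 1 := by
      rw [← Finset.coe_Iic, Set.ncard_coe_finset, Nat.card_Iic]
    omega
  · intro i hi j hj hij
    simp only [Set.mem_Iic] at hi hj hij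
    have h1 : 1 ≤ 2 ^ k := Nat.one_le_two_pow
    omega

/-- For all `r ≥ 5` and `n ≥ r + 2` there are rigid facets of `VR(Q_n; r)` in at least
`2 ^ (r - 5) + 1` different dimensions.  In particular `f(n; r)` is exponential in `r` for `n`
sufficiently large. -/
theorem result :
    (∀ r n : ℕ, 5 ≤ r → r + 2 ≤ n → 2 ^ (r - 5) + 1 ≤ f n r) ∧
    ∃ c : ℝ, 0 < c ∧ ∃ r₀ : ℕ, ∀ r ≥ r₀, ∃ n₀ : ℕ, ∀ n ≥ n₀, Real.exp (c * r) ≤ f n r := by
  have key : ∀ r n : ℕ, 5 ≤ r → r + 2 ≤ n → 2 ^ (r - 5) + 1 ≤ f n r := by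
    intro r n hr hn
    obtain ⟨k, rfl⟩ : ∃ k, r = k + 1 + 4 := ⟨r - 5, by omega⟩
    obtain ⟨m, rfl⟩ : ∃ m, n = k + 1 + 6 + m := ⟨n - (k + 7), by omega⟩
    have := lower k m
    simpa using this
  refine ⟨key, Real.log 2 / 2, by positivity, 10, fun r hr => ⟨r + 2, fun n hn => ?_⟩⟩
  have h1 := key r n (by omega) hn
  have h2 : Real.exp (Real.log 2 / 2 * r) ≤ (2 : ℝ) ^ (r - 5) := by
    have e : (2 : ℝ) ^ (r - 5) = Real.exp (Real.log 2 * ((r - 5 : ℕ) : ℝ)) := by
      rw [mul_comm, ← Real.rpow_natCast, Real.rpow_def_of_pos (by norm_num : (0 : ℝ) < 2)]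
      ring_nf
    rw [e, Real.exp_le_exp]
    have h3 : (r : ℝ) / 2 ≤ ((r - 5 : ℕ) : ℝ) := by
      rw [Nat.cast_sub (by omega)]
      have : (10 : ℝ) ≤ r := by exact_mod_cast hr
      push_cast
      linarith
    have h4 : 0 < Real.log 2 := Real.log_pos (by norm_num)
    calc Real.log 2 / 2 * r = Real.log 2 * (r / 2) := by ring
      _ ≤ _ := mul_le_mul_of_nonneg_left h3 h4.le
  have h5 : ((2 ^ (r - 5) + 1 : ℕ) : ℝ) ≤ (f n r : ℝ) := by exact_mod_cast h1
  push_cast at h5
  linarith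

end Pool.Agent.Results.MP_dee721_co.ExponentiallyMany
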